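import Pool.Agent.Run7.h35.PowerMain

set_option autoImplicit false

open Run7.h35

/-- Q1 for Euclidean powers `E = ℓ₂^M(G)` of an arbitrary finite-dimensional space `G`: for every
`0 < η < 1` there is `C` such that whenever `d(ℓ₂^M(G), Euclidean) ≥ L ≥ 1` some subspace `F` of
`ℓ₂^M(G)` has a basis with constant at most `C` and
`d(F, Euclidean) ≥ L / √(1 + C L² (dim G / M)^η)`. -/
theorem Pool.Agent.Results.MP_6c92e3_an.EuclideanPowers.result :
    ∀ η : ℝ, 0 < η → η < 1 → ∃ C : ℝ, 1 ≤ C ∧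
      ∀ (G : Type) [NormedAddCommGroup G] [NormedSpace ℝ G] [FiniteDimensional ℝ G]
        (M : ℕ) (L : ℝ), 1 ≤ L →
        DistGe (PiLp 2 (fun _ : Fin M => G)) L →
        ∃ F : Submodule ℝ (PiLp 2 (fun _ : Fin M => G)),
          BasisLe F C ∧
          DistGe F (L / Real.sqrt (1 + C * L ^ 2 * ((Module.finrank ℝ G : ℝ) / M) ^ η)) := by
  intro η hη0 hη1
  set θ : ℝ := (2 : ℝ) ^ (-(1 - η) / 2) with hθ
  have hθ0 : 0 < θ := Real.rpow_pos_of_pos two_pos _
  have hθ1 : θ < 1 := Real.rpow_lt_one_of_one_lt_of_neg (by norm_num) (by linarith)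
  have h2θ : 2 * θ ^ 2 = (2 : ℝ) ^ η := by
    rw [hθ, ← Real.rpow_natCast, ← Real.rpow_mul two_pos.le]
    nth_rewrite 1 [← Real.rpow_one (2 : ℝ)]
    rw [← Real.rpow_add two_pos]
    congr 1
    push_cast
    ring
  set C : ℝ := max (cst θ) 24 with hC
  have hC24 : 24 ≤ C := le_max_right _ _
  refine ⟨C, by linarith, ?_⟩
  intro G _ _ _ M L hL hd
  have hdG : DistGe G L := distGe_of_power M L hL hd
  -- nontriviality
  have hGn : Nontrivial G := by
    by_contra hc
    rw [not_nontrivial_iff_subsingleton] at hc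
    obtain ⟨T₀, h1, h2, h3⟩ := exists_equiv_of_map (G := G)
      (H := EuclideanSpace ℝ (Fin 1)) (0 : G →ₗ[ℝ] EuclideanSpace ℝ (Fin 1)) 1 0 one_pos le_rfl
      (by intro x; rw [Subsingleton.elim x 0]; simp) (by intro x; simp)
    have h4 := hdG T₀
    have h5 : ‖(T₀ : G →L[ℝ] EuclideanSpace ℝ (Fin (Module.finrank ℝ G)))‖ = 0 :=
      le_antisymm h1 (norm_nonneg _)
    rw [h5, zero_mul] at h4
    linarith
  have hEn : Nontrivial (PiLp 2 (fun _ : Fin M => G)) := by
    by_contra hc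
    rw [not_nontrivial_iff_subsingleton] at hc
    obtain ⟨T₀, h1, h2, h3⟩ := exists_equiv_of_map (G := PiLp 2 (fun _ : Fin M => G))
      (H := EuclideanSpace ℝ (Fin 1))
      (0 : (PiLp 2 (fun _ : Fin M => G)) →ₗ[ℝ] EuclideanSpace ℝ (Fin 1)) 1 0 one_pos le_rfl
      (by intro x; rw [Subsingleton.elim x 0]; simp) (by intro x; simp)
    have h4 := hd T₀
    have h5 : ‖(T₀ : (PiLp 2 (fun _ : Fin M => G)) →L[ℝ] EuclideanSpace ℝ
        (Fin (Module.finrank ℝ (PiLp 2 (fun _ : Fin M => G)))))‖ = 0 :=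
      le_antisymm h1 (norm_nonneg _)
    rw [h5, zero_mul] at h4
    linarith
  have hM0 : 0 < M := by
    rcases Nat.eq_zero_or_pos M with h0 | h0
    · subst h0
      exfalso
      obtain ⟨a, b, hab⟩ := hEn
      apply hab
      ext i
      exact i.elim0
    · exact h0
  set k := Module.finrank ℝ G with hk
  have hk0 : 0 < k := Module.finrank_pos
  have hkR : (1 : ℝ) ≤ k := by exact_mod_cast hk0
  have hMR : (0 : ℝ) < M := by exact_mod_cast hM0
  have hL0 : (0 : ℝ) < L := by linarith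
  rcases Nat.lt_or_ge M (k + 2) with hMk | hMk
  · -- trivial case
    obtain ⟨F, hb, hF⟩ := exists_line (V := PiLp 2 (fun _ : Fin M => G))
    refine ⟨F, hb.mono (by linarith), fun T => ?_⟩
    · refine le_trans ?_ (hF T)
      have h1 : (1 : ℝ) / 3 ≤ (k : ℝ) / M := by
        rw [div_le_div_iff₀ (by norm_num) hMR]
        have : (M : ℝ) < k + 2 := by exact_mod_cast hMk
        linarith
      have h2 : (1 : ℝ) / 3 ≤ ((k : ℝ) / M) ^ η := by
        calc (1 : ℝ) / 3 = ((1 : ℝ) / 3) ^ (1 : ℝ) := (Real.rpow_one _).symm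
          _ ≤ ((1 : ℝ) / 3) ^ η :=
            Real.rpow_le_rpow_of_exponent_ge (by norm_num) (by norm_num) hη1.le
          _ ≤ ((k : ℝ) / M) ^ η := Real.rpow_le_rpow (by norm_num) h1 hη0.le
      have h3 : L ^ 2 ≤ 1 + C * L ^ 2 * ((k : ℝ) / M) ^ η := by
        have h4 : 24 * L ^ 2 * (1 / 3) ≤ C * L ^ 2 * ((k : ℝ) / M) ^ η :=
          mul_le_mul (mul_le_mul_of_nonneg_right hC24 (by positivity)) h2 (by norm_num)
            (by positivity)
        nlinarith
      have h5 : L ≤ Real.sqrt (1 + C * L ^ 2 * ((k : ℝ) / M) ^ η) := Real.le_sqrt_of_sq_le h3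
      exact (div_le_one (lt_of_lt_of_le hL0 h5)).mpr h5
  · -- main case
    set n := Nat.log 2 (M / (k + 2)) with hn
    have hq : M / (k + 2) ≠ 0 := by
      have : 0 < M / (k + 2) := Nat.div_pos hMk (by omega)
      omega
    have hn1 : 2 ^ n ≤ M / (k + 2) := Nat.pow_log_le_self 2 hq
    have hn2 : M / (k + 2) < 2 ^ (n + 1) := Nat.lt_pow_succ_log_self (by norm_num) _
    have hn3 : 2 ^ n * (k + 2) ≤ M := (Nat.le_div_iff_mul_le (by omega)).mp hn1
    have hn4 : M < 2 ^ (n + 1) * (k + 2) := (Nat.div_lt_iff_lt_mul (by omega)).mp hn2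
    obtain ⟨F, hb, hF⟩ := power_step θ hθ0 hθ1 n M hn3 L hL hdG
    refine ⟨F, hb.mono (le_max_left _ _), fun T => ?_⟩
    · refine le_trans ?_ (hF T)
      refine div_le_div_of_nonneg_left hL0.le (by positivity) ?_
      refine Real.sqrt_le_sqrt ?_
      have h1 : (1 / (2 * θ ^ 2)) ^ n ≤ 6 * ((k : ℝ) / M) ^ η := by
        rw [h2θ, one_div, ← Real.rpow_neg two_pos.le, ← Real.rpow_natCast, ← Real.rpow_mul two_pos.le]
        have h2 : (2 : ℝ) ^ (-η * (n : ℝ)) = ((2 : ℝ) ^ (-(n : ℝ))) ^ η := by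
          rw [← Real.rpow_mul two_pos.le]
          congr 1
          ring
        have h3 : (2 : ℝ) ^ (-(n : ℝ)) ≤ 6 * ((k : ℝ) / M) := by
          rw [Real.rpow_neg two_pos.le, Real.rpow_natCast, inv_le_iff_one_le_mul₀ (by positivity)]
          rw [mul_div_assoc', div_mul_eq_mul_div, le_div_iff₀ hMR]
          have h5 : (M : ℝ) ≤ 2 ^ (n + 1) * (k + 2) := by exact_mod_cast hn4.le
          have h6 : (2 : ℝ) ^ (n + 1) * (k + 2) ≤ 6 * k * 2 ^ n := by
            rw [pow_succ]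
            have : (0 : ℝ) < 2 ^ n := by positivity
            nlinarith
          linarith
        rw [h2]
        calc ((2 : ℝ) ^ (-(n : ℝ))) ^ η ≤ (6 * ((k : ℝ) / M)) ^ η :=
              Real.rpow_le_rpow (by positivity) h3 hη0.le
          _ = (6 : ℝ) ^ η * ((k : ℝ) / M) ^ η := Real.mul_rpow (by norm_num) (by positivity)
          _ ≤ 6 * ((k : ℝ) / M) ^ η := by
            refine mul_le_mul_of_nonneg_right ?_ (by positivity)
            calc (6 : ℝ) ^ η ≤ (6 : ℝ) ^ (1 : ℝ) :=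
                  Real.rpow_le_rpow_of_exponent_le (by norm_num) hη1.le
              _ = 6 := Real.rpow_one _
      have h7 : 0 ≤ ((k : ℝ) / M) ^ η := by positivity
      have h8 : 4 * L ^ 2 * (1 / (2 * θ ^ 2)) ^ n ≤ 4 * L ^ 2 * (6 * ((k : ℝ) / M) ^ η) :=
        mul_le_mul_of_nonneg_left h1 (by positivity)
      have h9 : 24 * (L ^ 2 * ((k : ℝ) / M) ^ η) ≤ C * (L ^ 2 * ((k : ℝ) / M) ^ η) :=
        mul_le_mul_of_nonneg_right hC24 (by positivity)
      nlinarith
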