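import Pool.Agent.Run7.h35.Limit

set_option autoImplicit false

open Run7.h35

/-- Q1 holds for spaces that are not asymptotically Hilbertian: for every `C > 1`, `k` and `D ≥ 1`
there is `N` such that if every subspace of `E` of codimension at most `N` contains a
`k`-dimensional subspace at distance at least `D` from Euclidean, then some subspace `F` of `E` has
a basis with constant at most `C` and is at distance at least `D^(1/3) / 9` from Euclidean. -/
theorem Pool.Agent.Results.MP_6c92e3_an.NotAsymptoticallyHilbert.result :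
    ∀ C : ℝ, 1 < C → ∀ (k : ℕ) (D : ℝ), 1 ≤ D →
      ∃ N : ℕ, ∀ (E : Type) [NormedAddCommGroup E] [NormedSpace ℝ E] [FiniteDimensional ℝ E],
        (∀ Z : Submodule ℝ E, Module.finrank ℝ E ≤ Module.finrank ℝ Z + N →
          ∃ G : Submodule ℝ E, G ≤ Z ∧ Module.finrank ℝ G = k ∧ DistGe G D) →
        ∃ F : Submodule ℝ E, BasisLe F C ∧ DistGe F (D ^ (1 / 3 : ℝ) / 9) :=
  fun C hC k D hD => local_dichotomy C hC k D hD
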